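import Pool.Agent.H29.R2.Targets
import Mathlib.Analysis.Complex.RemovableSingularity

/-!
# (CNN) continuation of the L-functions of nontrivial ray class characters
-/

set_option autoImplicit false

open NumberField Complex Filter Topology

namespace Pool.Agent.H11.R2

open Pool.Agent.H29.R2 Pool.Agent.H28.RC Pool.Agent.H25.HK Pool.Agent.H25

theorem pf_CNN (h : T_CNT) : T_CNN := by
  intro K _ _ χ hχ
  obtain ⟨H, hd, he, h1⟩ := h K χ
  have h10 : H 1 = 0 := h1 hχ
  refine ⟨dslope H 1, ?_, ?_⟩
  · intro s hs
    have hopen : IsOpen {z : ℂ | 0 < z.re} := isOpen_lt continuous_const Complex.continuous_re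
    have hmem : {z : ℂ | 0 < z.re} ∈ 𝓝 (1 : ℂ) := hopen.mem_nhds (by simp)
    have hD : DifferentiableOn ℂ H {z : ℂ | 0 < z.re} :=
      fun z hz => (hd z hz).differentiableWithinAt
    have h2 := (Complex.differentiableOn_dslope hmem).2 hD
    exact h2.differentiableAt (hopen.mem_nhds hs)
  · intro s hs
    have hs1 : s ≠ 1 := by
      rintro rfl
      simp at hs
    rw [dslope_of_ne _ hs1, slope_def_field, h10, sub_zero, he s hs]
    field_simp [sub_ne_zero.2 hs1]

end Pool.Agent.H11.R2
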