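import Pool.Agent.H29.R2.Targets
import Mathlib.NumberTheory.EulerProduct.ExpLog

/-!
# (ELO) the logarithm of the L-function of a ray class character
-/

set_option autoImplicit false

open NumberField Complex Filter Topology

namespace Pool.Agent.H11.R2

open Pool.Agent.H29.R2 Pool.Agent.H28.RC Pool.Agent.H25.HK Pool.Agent.H25

/-- the power series of the logarithm, the first term split off -/
lemma log_split {z : ℂ} (hz : ‖z‖ < 1) :
    HasSum (fun k : ℕ => z ^ (k + 2) / ((k + 2 : ℕ) : ℂ)) (-Complex.log (1 - z) - z) := by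
  have h1 := Complex.hasSum_taylorSeries_neg_log hz
  have h2 := (hasSum_nat_add_iff' 2).2 h1
  have h3 : ∑ i ∈ Finset.range 2, z ^ i / (i : ℂ) = z := by
    simp [Finset.sum_range_succ]
  rw [h3] at h2
  exact h2

/-- one factor -/
lemma eul (h : ℕ → ℂ) (h0 : h 0 = 0) (h1 : h 1 = 1) (hm : ∀ a b, h (a * b) = h a * h b)
    (hb : ∀ a, ‖h a‖ ≤ 1) (s : ℂ) (hs : 1 < s.re) :
    (∀ p : Nat.Primes, ‖h p * ((p : ℕ) : ℂ) ^ (-s)‖ < 1) ∧
    (Summable fun p : Nat.Primes => h p * ((p : ℕ) : ℂ) ^ (-s)) ∧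
    (Summable fun p : Nat.Primes => -Complex.log (1 - h p * ((p : ℕ) : ℂ) ^ (-s))) ∧
    ∑' m : ℕ, h m * (m : ℂ) ^ (-s) =
      cexp (∑' p : Nat.Primes, -Complex.log (1 - h p * ((p : ℕ) : ℂ) ^ (-s))) := by
  set f : ℕ →*₀ ℂ :=
    { toFun := fun m => h m * (m : ℂ) ^ (-s)
      map_zero' := by rw [h0, zero_mul]
      map_one' := by rw [h1]; simp
      map_mul' := fun a b => by
        rw [hm]
        push_cast
        rw [Complex.natCast_mul_natCast_cpow]
        ring } with hf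
  have hfa : ∀ m, f m = h m * (m : ℂ) ^ (-s) := fun m => rfl
  have hnorm : ∀ m, ‖f m‖ ≤ (m : ℝ) ^ (-s.re) := by
    intro m
    rcases Nat.eq_zero_or_pos m with rfl | hm0
    · rw [hfa, h0, zero_mul, norm_zero]
      positivity
    · rw [hfa, norm_mul, Complex.norm_natCast_cpow_of_pos hm0, Complex.neg_re]
      exact mul_le_of_le_one_left (by positivity) (hb m)
  have hsum : Summable (‖f ·‖) := by
    refine Summable.of_nonneg_of_le (fun m => norm_nonneg _) hnorm ?_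
    rw [Real.summable_nat_rpow]
    linarith
  have hsp : Summable fun p : Nat.Primes => f p :=
    (hsum.of_norm).comp_injective Nat.Primes.coe_nat_injective
  have hlog : Summable fun p : Nat.Primes => -Complex.log (1 - f p) :=
    hsum.of_norm.clog_one_sub.neg.comp_injective Nat.Primes.coe_nat_injective
  have hlt : ∀ p : Nat.Primes, ‖f p‖ < 1 := fun p =>
    hsum.of_norm.norm_lt_one (f := f.toMonoidHom) p.2.one_lt
  exact ⟨hlt, hsp, hlog, (EulerProduct.exp_tsum_primes_log_eq_tsum hsum).symm⟩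

lemma pow_cpow (p : ℕ) (s : ℂ) (k : ℕ) :
    ((p : ℂ) ^ (-s)) ^ k = (p : ℂ) ^ (-((k : ℂ) * s)) := by
  rw [← Complex.cpow_nat_mul]
  congr 1
  ring

theorem pf_ELO (h : T_EPc) : T_ELO := by
  intro K _ _ χ
  obtain ⟨-, hj, h0, h1, hm, hb, -, hL, hsp⟩ := h K χ
  have hspk : ∀ (p : Nat.Primes) (k : ℕ), 1 ≤ k → sp χ p k = ∑ j, hj j p ^ k := by
    intro p k hk
    rw [sp, if_neg (by omega), hsp p k p.2 hk]
  refine ⟨?_, ?_⟩
  · intro p k
    rcases Nat.eq_zero_or_pos k with rfl | hk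
    · rw [sp, if_pos rfl, norm_zero]
      exact Nat.cast_nonneg _
    · rw [hspk p k hk]
      refine (norm_sum_le _ _).trans ?_
      have : ∑ j : Fin (Module.finrank ℚ K), ‖hj j p ^ k‖ ≤
          ∑ _j : Fin (Module.finrank ℚ K), (1 : ℝ) := by
        refine Finset.sum_le_sum fun j _ => ?_
        rw [norm_pow]
        exact pow_le_one₀ (norm_nonneg _) (hb j p)
      refine this.trans ?_
      simp
  · intro s hs
    have hE := fun j => eul (hj j) (h0 j) (h1 j) (hm j) (hb j) s hs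
    rw [hL s hs]
    have e1 : ∀ j, ∑' m : ℕ, hj j m * (m : ℂ) ^ (-s) =
        cexp (∑' p : Nat.Primes, -Complex.log (1 - hj j p * ((p : ℕ) : ℂ) ^ (-s))) :=
      fun j => (hE j).2.2.2
    rw [Finset.prod_congr rfl fun j _ => e1 j, ← Complex.exp_sum]
    congr 1
    rw [← Summable.tsum_finsetSum fun j _ => (hE j).2.2.1]
    have e2 : ∀ p : Nat.Primes,
        ∑ j, -Complex.log (1 - hj j p * ((p : ℕ) : ℂ) ^ (-s)) =
          sp χ p 1 * ((p : ℕ) : ℂ) ^ (-s) + ∑' k : ℕ, sp χ p (k + 2) *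
            (((p : ℕ) : ℂ) ^ (-(((k + 2 : ℕ) : ℂ) * s)) / ((k + 2 : ℕ) : ℂ)) := by
      intro p
      have a1 : ∀ j, HasSum (fun k : ℕ => hj j p ^ (k + 2) *
          (((p : ℕ) : ℂ) ^ (-(((k + 2 : ℕ) : ℂ) * s)) / ((k + 2 : ℕ) : ℂ)))
          (-Complex.log (1 - hj j p * ((p : ℕ) : ℂ) ^ (-s)) - hj j p * ((p : ℕ) : ℂ) ^ (-s)) := by
        intro j
        have b1 := log_split ((hE j).1 p)
        have b2 : (fun k : ℕ => (hj j p * ((p : ℕ) : ℂ) ^ (-s)) ^ (k + 2) / ((k + 2 : ℕ) : ℂ)) =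
            fun k : ℕ => hj j p ^ (k + 2) *
              (((p : ℕ) : ℂ) ^ (-(((k + 2 : ℕ) : ℂ) * s)) / ((k + 2 : ℕ) : ℂ)) := by
          funext k
          rw [mul_pow, pow_cpow, mul_div_assoc]
        rw [b2] at b1
        exact b1
      have a2 := hasSum_sum (s := Finset.univ) fun j _ => a1 j
      have a3 : (fun k : ℕ => ∑ j, hj j p ^ (k + 2) *
          (((p : ℕ) : ℂ) ^ (-(((k + 2 : ℕ) : ℂ) * s)) / ((k + 2 : ℕ) : ℂ))) =
          fun k : ℕ => sp χ p (k + 2) *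
            (((p : ℕ) : ℂ) ^ (-(((k + 2 : ℕ) : ℂ) * s)) / ((k + 2 : ℕ) : ℂ)) := by
        funext k
        rw [hspk p (k + 2) (by omega), Finset.sum_mul]
      rw [a3] at a2
      rw [a2.tsum_eq, hspk p 1 le_rfl, Finset.sum_sub_distrib, Finset.sum_mul]
      simp only [pow_one]
      ring
    have e3 : Summable fun p : Nat.Primes => sp χ p 1 * ((p : ℕ) : ℂ) ^ (-s) := by
      have : (fun p : Nat.Primes => sp χ p 1 * ((p : ℕ) : ℂ) ^ (-s)) =
          fun p : Nat.Primes => ∑ j, hj j p * ((p : ℕ) : ℂ) ^ (-s) := by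
        funext p
        rw [hspk p 1 le_rfl, Finset.sum_mul]
        simp only [pow_one]
      rw [this]
      exact summable_sum fun j _ => (hE j).2.1
    have e4 : Summable fun p : Nat.Primes =>
        ∑ j, -Complex.log (1 - hj j p * ((p : ℕ) : ℂ) ^ (-s)) :=
      summable_sum fun j _ => (hE j).2.2.1
    have e5 : Summable fun p : Nat.Primes => ∑' k : ℕ, sp χ p (k + 2) *
        (((p : ℕ) : ℂ) ^ (-(((k + 2 : ℕ) : ℂ) * s)) / ((k + 2 : ℕ) : ℂ)) := by
      have b := e4.sub e3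
      have b2 : (fun p : Nat.Primes => ∑ j, -Complex.log (1 - hj j p * ((p : ℕ) : ℂ) ^ (-s)) -
          sp χ p 1 * ((p : ℕ) : ℂ) ^ (-s)) = fun p : Nat.Primes => ∑' k : ℕ, sp χ p (k + 2) *
        (((p : ℕ) : ℂ) ^ (-(((k + 2 : ℕ) : ℂ) * s)) / ((k + 2 : ℕ) : ℂ)) := by
        funext p
        rw [e2 p, add_sub_cancel_left]
      rw [b2] at b
      exact b
    rw [tsum_congr e2, e3.tsum_add e5]
    rfl

end Pool.Agent.H11.R2
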